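import Pool.Agent.helper16.LW.Spec
import Pool.Agent.helper23.ZD.AL2

/-!
Module A2W of project lw: (MP_4467b5_nt): copy of helper23/ZD/AL2.lean with weights.
-/

set_option autoImplicit false

open Complex MeasureTheory

namespace Pool.Agent.LW

open Pool.Agent.ZD Pool.Agent.helper84.DM Pool.Agent.helper78.ED Pool.Agent.DH

theorem A2W_rF_cont (J : ℕ) (F : ℤ → ℝ) : Continuous (rF J F) := by
  unfold rF
  fun_prop

theorem A2W_f_cont (J : ℕ) (F : ℤ → ℝ) : Continuous (fun a : ℝ => ‖rF J F a‖ ^ (3 / 2 : ℝ)) := by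
  apply Continuous.rpow_const (A2W_rF_cont J F).norm
  intro x
  right
  norm_num

theorem A2W_JJsum (Cs : ℝ)
    (h : ∀ (X α : ℝ) (S : Finset ℤ), 1 ≤ X → ∑ m ∈ S, kap (X * ((m : ℝ) + α)) ≤ Cs / X * PK X α)
    (J : ℕ) (F : ℤ → ℝ) (X : ℝ) (hX : 1 ≤ X) (M : ℕ) (m₁ m₂ : ℤ) :
    ∑ m₃ ∈ MM M, JW J F X m₁ m₂ m₃ ≤ Cs / X * ∫ a in (-5 : ℝ)..5, ∫ b in (-5 : ℝ)..5,
      ‖rF J F a‖ ^ (3 / 2 : ℝ) * ‖rF J F b‖ ^ (3 / 2 : ℝ) *
        PK X ((m₁ : ℝ) * Real.exp a + (m₂ : ℝ) * Real.exp b) := by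
  have hf := A2W_f_cont J F
  have hk := AL2_kap_cont
  have hp := AL2_PK_cont X hX
  have hf1 : Continuous (fun q : ℝ × ℝ => ‖rF J F q.1‖ ^ (3 / 2 : ℝ)) := hf.comp continuous_fst
  have hf2 : Continuous (fun q : ℝ × ℝ => ‖rF J F q.2‖ ^ (3 / 2 : ℝ)) := hf.comp continuous_snd
  have hG : ∀ m₃ : ℤ, Continuous (Function.uncurry (fun a b : ℝ =>
      ‖rF J F a‖ ^ (3 / 2 : ℝ) * ‖rF J F b‖ ^ (3 / 2 : ℝ) *
        kap (X * ((m₁ : ℝ) * Real.exp a + (m₂ : ℝ) * Real.exp b + m₃)))) := by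
    intro m₃
    have h3 : Continuous (fun q : ℝ × ℝ =>
      kap (X * ((m₁ : ℝ) * Real.exp q.1 + (m₂ : ℝ) * Real.exp q.2 + m₃))) :=
      hk.comp (g := kap)
        (f := fun q : ℝ × ℝ => X * ((m₁ : ℝ) * Real.exp q.1 + (m₂ : ℝ) * Real.exp q.2 + m₃))
        (by fun_prop)
    exact (hf1.mul hf2).mul h3
  have hP : Continuous (Function.uncurry (fun a b : ℝ =>
      ‖rF J F a‖ ^ (3 / 2 : ℝ) * ‖rF J F b‖ ^ (3 / 2 : ℝ) *
        PK X ((m₁ : ℝ) * Real.exp a + (m₂ : ℝ) * Real.exp b))) := by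
    have h3 : Continuous (fun q : ℝ × ℝ =>
      PK X ((m₁ : ℝ) * Real.exp q.1 + (m₂ : ℝ) * Real.exp q.2)) :=
      hp.comp (g := PK X)
        (f := fun q : ℝ × ℝ => (m₁ : ℝ) * Real.exp q.1 + (m₂ : ℝ) * Real.exp q.2)
        (by fun_prop)
    exact (hf1.mul hf2).mul h3
  unfold JW
  refine AL2_dbl (MM M) (fun m₃ a b => ‖rF J F a‖ ^ (3 / 2 : ℝ) * ‖rF J F b‖ ^ (3 / 2 : ℝ) *
        kap (X * ((m₁ : ℝ) * Real.exp a + (m₂ : ℝ) * Real.exp b + m₃)))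
    (fun a b => ‖rF J F a‖ ^ (3 / 2 : ℝ) * ‖rF J F b‖ ^ (3 / 2 : ℝ) *
        PK X ((m₁ : ℝ) * Real.exp a + (m₂ : ℝ) * Real.exp b)) (Cs / X) hG hP ?_
  intro a b
  show ∑ m₃ ∈ MM M, ‖rF J F a‖ ^ (3 / 2 : ℝ) * ‖rF J F b‖ ^ (3 / 2 : ℝ) *
    kap (X * ((m₁ : ℝ) * Real.exp a + (m₂ : ℝ) * Real.exp b + m₃)) ≤ Cs / X *
    (‖rF J F a‖ ^ (3 / 2 : ℝ) * ‖rF J F b‖ ^ (3 / 2 : ℝ) *
    PK X ((m₁ : ℝ) * Real.exp a + (m₂ : ℝ) * Real.exp b))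
  rw [← Finset.mul_sum]
  have h2 := h X ((m₁ : ℝ) * Real.exp a + (m₂ : ℝ) * Real.exp b) (MM M) hX
  have h3 : ∑ m₃ ∈ MM M, kap (X * ((m₁ : ℝ) * Real.exp a + (m₂ : ℝ) * Real.exp b + m₃)) =
      ∑ m₃ ∈ MM M, kap (X * ((m₃ : ℝ) + ((m₁ : ℝ) * Real.exp a + (m₂ : ℝ) * Real.exp b))) := by
    apply Finset.sum_congr rfl
    intro m _
    congr 1
    ring
  rw [h3]
  have h4 : 0 ≤ ‖rF J F a‖ ^ (3 / 2 : ℝ) * ‖rF J F b‖ ^ (3 / 2 : ℝ) := by positivity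
  have h5 := mul_le_mul_of_nonneg_left h2 h4
  linarith

theorem A2W_pt (x K : ℝ) (hx : 0 ≤ x) (hK : 0 < K) :
    x ^ (3 / 2 : ℝ) ≤ (3 / 4) * x ^ 2 / K ^ (1 / 4 : ℝ) + (1 / 4) * (K ^ (1 / 4 : ℝ)) ^ 3 := by
  have ht : 0 < K ^ (1 / 4 : ℝ) := by positivity
  set t := K ^ (1 / 4 : ℝ)
  have hs : x ^ (3 / 2 : ℝ) = (Real.sqrt x) ^ 3 := by
    rw [Real.sqrt_eq_rpow, ← Real.rpow_natCast, ← Real.rpow_mul hx]
    norm_num
  have hs2 : x ^ 2 = (Real.sqrt x) ^ 4 := by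
    have := Real.sq_sqrt hx
    calc x ^ 2 = ((Real.sqrt x) ^ 2) ^ 2 := by rw [this]
      _ = (Real.sqrt x) ^ 4 := by ring
  rw [hs, hs2]
  have hs0 : 0 ≤ Real.sqrt x := Real.sqrt_nonneg x
  set s := Real.sqrt x
  have key : 4 * s ^ 3 * t ≤ 3 * s ^ 4 + t ^ 4 := by
    have : 3 * s ^ 4 + t ^ 4 - 4 * s ^ 3 * t = (s - t) ^ 2 * (3 * s ^ 2 + 2 * s * t + t ^ 2) := by ring
    have h2 : 0 ≤ (s - t) ^ 2 * (3 * s ^ 2 + 2 * s * t + t ^ 2) := by positivity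
    linarith
  have e : 3 / 4 * s ^ 4 / t + 1 / 4 * t ^ 3 = (3 * s ^ 4 + t ^ 4) / (4 * t) := by
    field_simp
  rw [e, le_div_iff₀ (by positivity)]
  linarith

theorem A2W_intf (Cq : ℝ) (J : ℕ) (F : ℤ → ℝ) (S : ℝ) (hS : 0 < S)
    (hq : ∫ x in (-5 : ℝ)..5, ‖rF J F x‖ ^ 2 ≤ Cq * S) :
    ∫ a in (-5 : ℝ)..5, ‖rF J F a‖ ^ (3 / 2 : ℝ) ≤
      ((3 / 4) * Cq + 5 / 2) * (S ^ (1 / 4 : ℝ)) ^ 3 := by
  have ht : 0 < S ^ (1 / 4 : ℝ) := by positivity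
  have ht4 : S = (S ^ (1 / 4 : ℝ)) ^ 4 := by
    rw [← Real.rpow_natCast, ← Real.rpow_mul (by positivity)]
    norm_num
  have hc := A2W_rF_cont J F
  calc ∫ a in (-5 : ℝ)..5, ‖rF J F a‖ ^ (3 / 2 : ℝ)
      ≤ ∫ a in (-5 : ℝ)..5, ((3 / 4) / S ^ (1 / 4 : ℝ) * ‖rF J F a‖ ^ 2 +
          (1 / 4) * (S ^ (1 / 4 : ℝ)) ^ 3) := by
        apply intervalIntegral.integral_mono (by norm_num)
        · exact (A2W_f_cont J F).intervalIntegrable _ _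
        · apply Continuous.intervalIntegrable
          fun_prop
        · intro a
          have := A2W_pt ‖rF J F a‖ S (norm_nonneg _) hS
          show ‖rF J F a‖ ^ (3 / 2 : ℝ) ≤ (3 / 4) / S ^ (1 / 4 : ℝ) * ‖rF J F a‖ ^ 2 +
          (1 / 4) * (S ^ (1 / 4 : ℝ)) ^ 3
          calc _ ≤ _ := this
            _ = _ := by ring
    _ = (3 / 4) / S ^ (1 / 4 : ℝ) * (∫ a in (-5 : ℝ)..5, ‖rF J F a‖ ^ 2) +
          10 * ((1 / 4) * (S ^ (1 / 4 : ℝ)) ^ 3) := by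
        rw [intervalIntegral.integral_add, intervalIntegral.integral_const_mul,
          intervalIntegral.integral_const]
        · norm_num
        · apply Continuous.intervalIntegrable
          fun_prop
        · exact intervalIntegrable_const
    _ ≤ (3 / 4) / S ^ (1 / 4 : ℝ) * (Cq * S) +
          10 * ((1 / 4) * (S ^ (1 / 4 : ℝ)) ^ 3) := by
        have h0 : (0 : ℝ) ≤ (3 / 4) / S ^ (1 / 4 : ℝ) :=
          div_nonneg (by norm_num) ht.le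
        have h1 := mul_le_mul_of_nonneg_left hq h0
        linarith
    _ = ((3 / 4) * Cq + 5 / 2) * (S ^ (1 / 4 : ℝ)) ^ 3 := by
        set t := S ^ (1 / 4 : ℝ)
        rw [ht4]
        field_simp
        ring

theorem A2W (h1 : A1W_stmt) (h2 : STR_stmt) (h3 : SPK_stmt) (h4 : DVS_stmt) (h5 : RHO_stmt) :
    A2W_stmt := by
  intro ε hε
  obtain ⟨C1, hC1, h1⟩ := h1
  obtain ⟨Cs, hCs, h2⟩ := h2
  obtain ⟨Cd, hCd, h4⟩ := h4 ε hε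
  set Cq : ℝ := 4 * Real.pi with hCqdef
  have hCq : 0 < Cq := by positivity
  refine ⟨C1 * Cs * (4 * ((3 / 4) * Cq + 5 / 2) ^ 2 + Cd), by positivity, ?_⟩
  intro J F X M hX hM
  have hX0 : 0 < X := by linarith
  have hM1 : (1 : ℝ) ≤ M := by exact_mod_cast hM
  have hMX : 1 ≤ (M : ℝ) * X := by nlinarith
  have hE : 1 ≤ ((M : ℝ) * X) ^ ε := Real.one_le_rpow hMX hε.le
  set S : ℝ := ∑ j ∈ IJ J, F j ^ 2 with hSdef
  have hS0 : 0 ≤ S := Finset.sum_nonneg (fun j _ => sq_nonneg _)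
  set Q3 : ℝ := ∫ x in (-5 : ℝ)..5, ‖rF J F x‖ ^ 3 with hQ3def
  have hq3 : 0 ≤ Q3 := by
    rw [hQ3def]
    apply intervalIntegral.integral_nonneg (by norm_num)
    intro a _
    positivity
  rcases eq_or_lt_of_le hS0 with hw0 | hw
  · have hF0 : ∀ j ∈ IJ J, F j = 0 := by
      intro j hj
      have h := (Finset.sum_eq_zero_iff_of_nonneg (fun j _ => sq_nonneg (F j))).1 (hSdef ▸ hw0.symm) j hj
      exact pow_eq_zero_iff (two_ne_zero) |>.1 h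
    have hz : ∑ j ∈ IJ J, ∑ k ∈ IJ J, ∑ l ∈ IJ J, ((F j * F k * F l : ℝ) : ℂ) *
      (Bs X M ((j : ℝ) - k) * Bs X M ((k : ℝ) - l) * Bs X M ((l : ℝ) - j)) = 0 := by
      apply Finset.sum_eq_zero
      intro j hj
      apply Finset.sum_eq_zero
      intro k _
      apply Finset.sum_eq_zero
      intro l _
      rw [hF0 j hj]
      simp
    rw [hz, norm_zero]
    positivity
  set f : ℝ → ℝ := fun a => ‖rF J F a‖ ^ (3 / 2 : ℝ) with hfdef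
  have hfc : Continuous f := A2W_f_cont J F
  have hf0 : ∀ a, 0 ≤ f a := fun a => by
    show 0 ≤ ‖rF J F a‖ ^ (3 / 2 : ℝ)
    positivity
  obtain ⟨hsum, htsum⟩ := h3 f X M hfc hX
  have hq : ∫ x in (-5 : ℝ)..5, ‖rF J F x‖ ^ 2 ≤ Cq * S := by
    obtain ⟨-, -, -, h6, h7⟩ := h5 J F
    have h8 := h7 2
    rw [h6] at h8
    calc _ ≤ _ := h8
      _ = Cq * S := by rw [hCqdef]; ring
  have hif := A2W_intf Cq J F S hw hq
  have hif0 : 0 ≤ ∫ a in (-5 : ℝ)..5, f a := by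
    apply intervalIntegral.integral_nonneg (by norm_num)
    intro a _
    exact hf0 a
  have hf2 : ∫ a in (-5 : ℝ)..5, f a ^ 2 = Q3 := by
    rw [hQ3def]
    congr 1
    funext a
    show (‖rF J F a‖ ^ (3 / 2 : ℝ)) ^ 2 = ‖rF J F a‖ ^ 3
    rw [← Real.rpow_natCast, ← Real.rpow_mul (norm_nonneg _), ← Real.rpow_natCast]
    norm_num
  have ht6 : ((S ^ (1 / 4 : ℝ)) ^ 3) ^ 2 = S ^ (3 / 2 : ℝ) := by
    rw [← pow_mul, ← Real.rpow_natCast, ← Real.rpow_mul (by positivity)]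
    norm_num
  -- the term j = 0
  have hterm0 : ‖∑ m ∈ MM M, cf f (0 * m)‖ ^ 2 ≤
      4 * ((3 / 4) * Cq + 5 / 2) ^ 2 * ((M : ℝ) ^ 2 * S ^ (3 / 2 : ℝ)) := by
    have h6 := AL2_F0 f hf0 M
    have h7 : ‖∑ m ∈ MM M, cf f (0 * m)‖ ≤ 2 * M * (((3 / 4) * Cq + 5 / 2) *
        (S ^ (1 / 4 : ℝ)) ^ 3) :=
      h6.trans (mul_le_mul_of_nonneg_left hif (by positivity))
    calc ‖∑ m ∈ MM M, cf f (0 * m)‖ ^ 2 ≤ (2 * M * (((3 / 4) * Cq + 5 / 2) *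
        (S ^ (1 / 4 : ℝ)) ^ 3)) ^ 2 := by
          apply pow_le_pow_left₀ (norm_nonneg _) h7
      _ = 4 * ((3 / 4) * Cq + 5 / 2) ^ 2 * ((M : ℝ) ^ 2 *
          ((S ^ (1 / 4 : ℝ)) ^ 3) ^ 2) := by ring
      _ = _ := by rw [ht6]
  -- the whole sum
  have hts : ∑' j : ℤ, Real.exp (-(|(j : ℝ)| / X)) * ‖∑ m ∈ MM M, cf f (j * m)‖ ^ 2 ≤
      4 * ((3 / 4) * Cq + 5 / 2) ^ 2 * ((M : ℝ) ^ 2 * S ^ (3 / 2 : ℝ)) +
      Cd * ((M : ℝ) * X) ^ ε * M * Q3 := by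
    apply hsum.tsum_le_of_sum_le
    intro J₀
    have h8 : ∑ j ∈ J₀, Real.exp (-(|(j : ℝ)| / X)) * ‖∑ m ∈ MM M, cf f (j * m)‖ ^ 2 ≤
        ∑ j ∈ insert 0 (J₀.erase 0),
          Real.exp (-(|(j : ℝ)| / X)) * ‖∑ m ∈ MM M, cf f (j * m)‖ ^ 2 := by
      apply Finset.sum_le_sum_of_subset_of_nonneg
      · intro j hj
        by_cases h0 : j = 0
        · simp [h0]
        · simp [h0, hj]
      · intro j _ _
        positivity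
    refine h8.trans ?_
    rw [Finset.sum_insert (Finset.notMem_erase _ _)]
    have h9 := h4 f X M (J₀.erase 0) hfc hX hM (Finset.notMem_erase _ _)
    rw [hf2] at h9
    have h10 : Real.exp (-(|((0 : ℤ) : ℝ)| / X)) * ‖∑ m ∈ MM M, cf f (0 * m)‖ ^ 2 =
        ‖∑ m ∈ MM M, cf f (0 * m)‖ ^ 2 := by simp
    rw [h10]
    exact add_le_add hterm0 h9
  have hJ : ∑ m₁ ∈ MM M, ∑ m₂ ∈ MM M, ∑ m₃ ∈ MM M, JW J F X m₁ m₂ m₃ ≤ Cs / X *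
      ∑' j : ℤ, Real.exp (-(|(j : ℝ)| / X)) * ‖∑ m ∈ MM M, cf f (j * m)‖ ^ 2 := by
    rw [← htsum, Finset.mul_sum]
    apply Finset.sum_le_sum
    intro m₁ _
    rw [Finset.mul_sum]
    apply Finset.sum_le_sum
    intro m₂ _
    exact A2W_JJsum Cs h2 J F X hX M m₁ m₂
  have hmain := h1 J F X M hX0.le
  refine hmain.trans ?_
  calc C1 * X ^ 3 * ∑ m₁ ∈ MM M, ∑ m₂ ∈ MM M, ∑ m₃ ∈ MM M, JW J F X m₁ m₂ m₃
      ≤ C1 * X ^ 3 * (Cs / X * (4 * ((3 / 4) * Cq + 5 / 2) ^ 2 *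
        ((M : ℝ) ^ 2 * S ^ (3 / 2 : ℝ)) + Cd * ((M : ℝ) * X) ^ ε * M * Q3)) := by
        apply mul_le_mul_of_nonneg_left _ (by positivity)
        exact hJ.trans (mul_le_mul_of_nonneg_left hts (by positivity))
    _ = C1 * Cs * X ^ 2 * (4 * ((3 / 4) * Cq + 5 / 2) ^ 2 *
        ((M : ℝ) ^ 2 * S ^ (3 / 2 : ℝ)) + Cd * ((M : ℝ) * X) ^ ε * M * Q3) := by
        field_simp
    _ ≤ C1 * Cs * X ^ 2 * ((4 * ((3 / 4) * Cq + 5 / 2) ^ 2 + Cd) * ((M : ℝ) * X) ^ ε *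
        ((M : ℝ) ^ 2 * S ^ (3 / 2 : ℝ) + M * Q3)) := by
        apply mul_le_mul_of_nonneg_left _ (by positivity)
        set A := 4 * ((3 / 4) * Cq + 5 / 2) ^ 2 with hA
        set E := ((M : ℝ) * X) ^ ε with hEdef
        set P := (M : ℝ) ^ 2 * S ^ (3 / 2 : ℝ) with hPdef
        have hA0 : 0 ≤ A := by positivity
        have hP0 : 0 ≤ P := by positivity
        have hQ0 : 0 ≤ (M : ℝ) * Q3 := by positivity
        have e1 : A * P ≤ A * E * P := by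
          have : A * P * 1 ≤ A * P * E := mul_le_mul_of_nonneg_left hE (by positivity)
          linarith
        have e2 : 0 ≤ A * E * (M * Q3) := by positivity
        have e3 : 0 ≤ Cd * E * P := by positivity
        nlinarith
    _ = C1 * Cs * (4 * ((3 / 4) * Cq + 5 / 2) ^ 2 + Cd) * ((M : ℝ) * X) ^ ε * X ^ 2 *
        ((M : ℝ) ^ 2 * S ^ (3 / 2 : ℝ) + M * Q3) := by ring

end Pool.Agent.LW
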